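import Mathlib
import Pool.Agent.TH724.CJ.Main

/-!
# Topological conjugacy of diffeomorphisms is not classifiable by countable structures

Let `M` be a compact manifold of dimension at least two. In a coordinate ball of `M` we place
disjoint balls `B_0, B_1, ...` whose radii tend to zero, the ball `B_k` close to the
point `s_k` of a fixed segment, and let `f_s` be on `B_k` a twist whose core consists of
periodic points of exact period `P_k`, where `P_k` are distinct and tend to infinity so fast
that `f_s` is a smooth diffeomorphism. If the sum of `|s_k - t_k|` is finite, then `f_s` and `f_t`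
are topologically conjugate (move all the balls in the direction of the segment). Conversely a
conjugacy maps the core of `B_k` (the interior of the set of the points of period `P_k`) to the
core of the corresponding ball, hence maps the limits of `s_k` along a subsequence to the limits
of `t_k`. The action of `ℓ¹` on `ℝ^ℕ` is generically ergodic against Borel actions of `S_∞`.
-/

set_option autoImplicit false

open Filter Topology Set
open scoped ContDiff Manifold

universe u v

namespace Pool.Agent.Results.MP_9aeaaa_lc.NotByCountableStructures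

section defs

variable (n : ℕ) (M : Type u) [TopologicalSpace M] [ChartedSpace (EuclideanSpace ℝ (Fin n)) M]

/-- The set of the `C^∞` diffeomorphisms of `M`. -/
abbrev Diff : Type u := Diffeomorph (𝓡 n) (𝓡 n) M M ∞

/-- The Borel structure of `Diff^∞(M)`, generated by the evaluations `f ↦ f p`, `p ∈ M`. (By the
theorem of Lusin and Souslin it is the Borel structure of the `C^∞` topology, which is Polish: the
evaluations at a countable dense set of points are continuous and separate the points.) -/
@[reducible] noncomputable def diffBorel : MeasurableSpace (Diff n M) := ⨆ p : M, (borel M).comap (fun f : Diff n M => f p)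

variable {n M}

/-- Topological conjugacy. -/
def TopConj (f g : Diff n M) : Prop := ∃ h : M ≃ₜ M, ⇑h ∘ ⇑f = ⇑g ∘ ⇑h

end defs

/-- The topology of pointwise convergence on the group of all permutations of `ℕ`. -/
@[reducible] noncomputable def permTopology : TopologicalSpace (Equiv.Perm ℕ) :=
  TopologicalSpace.induced (fun π => (π : ℕ → ℕ)) inferInstance

/-- The Borel structure of the Polish group `S_∞`. -/
@[reducible] noncomputable def permBorel : MeasurableSpace (Equiv.Perm ℕ) := @borel _ permTopology

/-- The action of `S_∞` on `Z` is Borel. -/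
def BorelAction (Z : Type v) [MeasurableSpace Z] [MulAction (Equiv.Perm ℕ) Z] : Prop :=
  @Measurable (Equiv.Perm ℕ × Z) Z (permBorel.prod inferInstance) _ fun p => p.1 • p.2

/-- The orbit equivalence relation of the action of `S_∞` on `Z`. -/
def OrbitRel (Z : Type v) [MulAction (Equiv.Perm ℕ) Z] (z w : Z) : Prop :=
  ∃ π : Equiv.Perm ℕ, π • z = w

/-- `E` on `X` is Borel reducible to `F` on `Y`. -/
def BorelReducible {X : Type u} {Y : Type v} (mX : MeasurableSpace X) (mY : MeasurableSpace Y)
    (E : X → X → Prop) (F : Y → Y → Prop) : Prop :=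
  ∃ φ : X → Y, @Measurable X Y mX mY φ ∧ ∀ x x', E x x' ↔ F (φ x) (φ x')

lemma permBorel_le : permBorel ≤ Pool.Agent.H468R2.KA.permMS := by
  have h1 : permBorel = (borel (ℕ → ℕ)).comap (fun π : Equiv.Perm ℕ => (π : ℕ → ℕ)) := by
    unfold permBorel permTopology
    exact borel_comap
  rw [h1, ← BorelSpace.measurable_eq (α := ℕ → ℕ)]
  rw [← measurable_iff_comap_le]
  refine @measurable_pi_lambda _ _ _ Pool.Agent.H468R2.KA.permMS _ _ fun i => ?_
  refine @measurable_to_countable' ℕ (Equiv.Perm ℕ) _ _ Pool.Agent.H468R2.KA.permMS _ fun j => ?_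
  exact MeasurableSpace.measurableSet_generateFrom ⟨i, j, rfl⟩

/-- For every nonempty compact smooth manifold of dimension at least two, topological conjugacy of
diffeomorphisms is not Borel reducible to the orbit equivalence relation of any Borel action
of `S_∞` on a standard Borel space. -/
theorem result (n : ℕ) (hn : 2 ≤ n) (M : Type u) [TopologicalSpace M] [T2Space M]
    [CompactSpace M] [Nonempty M] [ChartedSpace (EuclideanSpace ℝ (Fin n)) M]
    [IsManifold (𝓡 n) ∞ M] (Z : Type v) [MeasurableSpace Z] [StandardBorelSpace Z]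
    [MulAction (Equiv.Perm ℕ) Z] (hact : BorelAction Z) :
    ¬ BorelReducible (diffBorel n M) inferInstance (TopConj (n := n) (M := M)) (OrbitRel Z) := by
  rintro ⟨φ, hφ, hiff⟩
  let mM : MeasurableSpace M := borel M
  have bM : BorelSpace M := ⟨rfl⟩
  obtain ⟨p0⟩ := (inferInstance : Nonempty M)
  obtain ⟨e, he, h1, h2⟩ := Pool.Agent.TH724.CJ.exists_chart (n := n) p0
  obtain ⟨a, b, hab⟩ := Pool.Agent.TH724.CJ.exists_ON hn
  obtain ⟨P, hP⟩ := Pool.Agent.TH724.CJ.exists_good a b
  obtain ⟨D, hD⟩ : ∃ D : (ℕ → ℝ) → Diff n M, ∀ x p, D x p = Pool.Agent.TH724.CJ.gl e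
      (Pool.Agent.TH724.CJ.FF a b (Pool.Agent.TH724.CJ.ta P) (Pool.Agent.TH724.CJ.sV x)) p :=
    ⟨Pool.Agent.TH724.CJ.DD he h1 h2 hab hP, fun _ _ => rfl⟩
  have hDm : @Measurable _ _ _ (diffBorel n M) D := by
    rw [measurable_iff_comap_le]
    unfold diffBorel
    rw [MeasurableSpace.comap_iSup]
    refine iSup_le fun p => ?_
    rw [MeasurableSpace.comap_comp, ← measurable_iff_comap_le]
    have h3 : Continuous fun x => D x p := by
      simp only [hD]
      by_cases hp : p ∈ e.source
      · simp only [Pool.Agent.TH724.CJ.gl_in hp]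
        exact e.continuousOn_symm.comp_continuous
          (Pool.Agent.TH724.CJ.continuous_FF_param hab _ Pool.Agent.TH724.CJ.continuous_sV (e p))
          fun x => (Pool.Agent.TH724.CJ.adm_FF hab _
            (Pool.Agent.TH724.CJ.abs_sV x)).target he (e.map_source hp)
      · simp only [Pool.Agent.TH724.CJ.gl_out hp]
        exact continuous_const
    exact h3.measurable
  have hf : Measurable fun x => φ (D x) := hφ.comp hDm
  have hact' : @Measurable (Equiv.Perm ℕ × Z) Z
      (Pool.Agent.H468R2.KA.permMS.prod inferInstance) _ (fun p => p.1 • p.2) :=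
    Measurable.mono hact (sup_le_sup (MeasurableSpace.comap_mono permBorel_le) le_rfl) le_rfl
  have hclose : ∀ x y : ℕ → ℝ, Summable (fun k => |x k - y k|) →
      ∃ π : Equiv.Perm ℕ, π • φ (D x) = φ (D y) := by
    intro x y hxy
    refine (hiff (D x) (D y)).1 ?_
    have h4 : Summable fun k => |Pool.Agent.TH724.CJ.sV y k - Pool.Agent.TH724.CJ.sV x k| :=
      Summable.of_nonneg_of_le (fun _ => abs_nonneg _)
        (fun k => by rw [abs_sub_comm]; exact Pool.Agent.TH724.CJ.sV_sub x y k) hxy
    obtain ⟨g, hg⟩ := Pool.Agent.TH724.CJ.close_conj hab he (Pool.Agent.TH724.CJ.ta P)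
      (Pool.Agent.TH724.CJ.abs_sV x) (Pool.Agent.TH724.CJ.abs_sV y) h4
    refine ⟨g, ?_⟩
    funext p
    simp only [Function.comp, hD]
    exact hg p
  obtain ⟨C, hC, hCC⟩ := Pool.Agent.TH724.CJ.t_perm Z hact' (fun x => φ (D x)) hf hclose
  obtain ⟨x, hx, y, hy, h5, h6⟩ := Pool.Agent.TH724.CJ.exists_gen hC 0 Real.pi 0 0
  obtain ⟨g, hg⟩ := (hiff (D x) (D y)).2 (hCC x hx y hy)
  have hg' : ∀ p, g (Pool.Agent.TH724.CJ.gl e (Pool.Agent.TH724.CJ.FF a b
      (Pool.Agent.TH724.CJ.ta P) (Pool.Agent.TH724.CJ.sV x)) p) =
      Pool.Agent.TH724.CJ.gl e (Pool.Agent.TH724.CJ.FF a b (Pool.Agent.TH724.CJ.ta P)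
        (Pool.Agent.TH724.CJ.sV y)) (g p) := by
    intro p
    have := congrFun hg p
    simp only [Function.comp, hD] at this
    exact this
  have b1 : |(1 + Real.cos 0) / 100| ≤ 1 / 50 := by
    rw [Real.cos_zero, abs_of_pos (by norm_num)]
    norm_num
  have b2 : |(1 + Real.cos Real.pi) / 100| ≤ 1 / 50 := by
    rw [Real.cos_pi]
    norm_num
  have h7 := Pool.Agent.TH724.CJ.match_limit hab he hP.two hP.inj
    (Pool.Agent.TH724.CJ.abs_sV x) (Pool.Agent.TH724.CJ.abs_sV y) hg' b1 b2 h5
  have h8 := Pool.Agent.TH724.CJ.match_limit hab he hP.two hP.inj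
    (Pool.Agent.TH724.CJ.abs_sV x) (Pool.Agent.TH724.CJ.abs_sV y) hg' b1 b1 h6
  rw [h7, Real.cos_pi, Real.cos_zero] at h8
  have hmem : ∀ γ : ℝ, |γ| ≤ 1 / 50 → γ • a ∈ e.target := by
    intro γ hγ
    refine he ?_
    rw [mem_closedBall_zero_iff, norm_smul, hab.na, mul_one, Real.norm_eq_abs]
    linarith
  have h9 := e.symm.injOn (hmem _ (by norm_num)) (hmem _ (by norm_num)) h8
  have h10 := congrArg norm h9
  rw [norm_smul, norm_smul, hab.na] at h10
  norm_num at h10

end Pool.Agent.Results.MP_9aeaaa_lc.NotByCountableStructures
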